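import Pool.Agent.helper43.BMH.Spec

/-!
# RTK: the range of the support in (4.7)
-/

namespace Pool.Agent.helper43.BMH

theorem RTK_spt {ι : Type} [Fintype ι] (z : ι → ℤ) (hz : ∀ i, |z i| ≤ 1) :
    ∑ i, ((z i : ℝ)) ^ 2 = (spt z : ℝ) := by
  unfold spt
  rw [Finset.card_filter]
  push_cast
  refine Finset.sum_congr rfl fun i _ => ?_
  have h := hz i
  rw [abs_le] at h
  have h3 : z i = -1 ∨ z i = 0 ∨ z i = 1 := by omega
  rcases h3 with h4 | h4 | h4 <;> rw [h4] <;> norm_num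

theorem t_rtk (h : HDN) : RTK := by
  intro ι _ _ T hT D y z hD hz hn
  obtain ⟨-, -, hnorm⟩ := h ι T hT
  rcases Nat.eq_zero_or_pos (Fintype.card ι) with h0 | hpos
  · have hs : spt z = 0 := by
      have h1 : spt z ≤ Fintype.card ι := by
        unfold spt
        exact (Finset.card_le_card (Finset.filter_subset _ _)).trans (le_of_eq Finset.card_univ)
      omega
    rw [hs, h0]
    norm_num
  · have hnpos : (0 : ℝ) < (Fintype.card ι : ℝ) := by exact_mod_cast hpos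
    set n : ℝ := (Fintype.card ι : ℝ) with hndef
    have hy : ∑ i, (sv y i) ^ 2 = n := by
      have h1 : ∀ i, (sv y i) ^ 2 = 1 := by
        intro i
        unfold sv
        rcases Int.units_eq_one_or (y i) with h2 | h2 <;> rw [h2] <;> norm_num
      rw [Finset.sum_congr rfl fun i _ => h1 i, Finset.sum_const, Finset.card_univ, nsmul_eq_mul,
        mul_one]
    have ha : ∑ i, (T.mulVec (sv y) i / Real.sqrt n) ^ 2 = n := by
      have h1 : ∀ i, (T.mulVec (sv y) i / Real.sqrt n) ^ 2 = (T.mulVec (sv y) i) ^ 2 / n := by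
        intro i
        rw [div_pow, Real.sq_sqrt hnpos.le]
      rw [Finset.sum_congr rfl fun i _ => h1 i, ← Finset.sum_div, hnorm, hy]
      field_simp
    have hb : ∑ i, (Real.sqrt 2 * (z i : ℝ)) ^ 2 = 2 * (spt z : ℝ) := by
      have h1 : ∀ i, (Real.sqrt 2 * (z i : ℝ)) ^ 2 = 2 * (z i : ℝ) ^ 2 := by
        intro i
        rw [mul_pow, Real.sq_sqrt (by norm_num)]
      rw [Finset.sum_congr rfl fun i _ => h1 i, ← Finset.mul_sum, RTK_spt z hz]
    have hn' : ∑ i, (T.mulVec (sv y) i / Real.sqrt n - Real.sqrt 2 * (z i : ℝ)) ^ 2 ≤ D := hn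
    have k1 : ∑ i, (Real.sqrt 2 * (z i : ℝ)) ^ 2 ≤
        5 / 4 * ∑ i, (T.mulVec (sv y) i / Real.sqrt n) ^ 2 +
          5 * ∑ i, (T.mulVec (sv y) i / Real.sqrt n - Real.sqrt 2 * (z i : ℝ)) ^ 2 := by
      rw [Finset.mul_sum, Finset.mul_sum, ← Finset.sum_add_distrib]
      refine Finset.sum_le_sum fun i _ => ?_
      nlinarith [sq_nonneg (5 / 2 * (T.mulVec (sv y) i / Real.sqrt n) -
        2 * (Real.sqrt 2 * (z i : ℝ)))]
    have k2 : ∑ i, (T.mulVec (sv y) i / Real.sqrt n) ^ 2 ≤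
        5 / 4 * ∑ i, (Real.sqrt 2 * (z i : ℝ)) ^ 2 +
          5 * ∑ i, (T.mulVec (sv y) i / Real.sqrt n - Real.sqrt 2 * (z i : ℝ)) ^ 2 := by
      rw [Finset.mul_sum, Finset.mul_sum, ← Finset.sum_add_distrib]
      refine Finset.sum_le_sum fun i _ => ?_
      nlinarith [sq_nonneg (5 / 2 * (Real.sqrt 2 * (z i : ℝ)) -
        2 * (T.mulVec (sv y) i / Real.sqrt n))]
    rw [ha, hb] at k1 k2
    constructor <;> linarith

end Pool.Agent.helper43.BMH
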